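import Mathlib

set_option autoImplicit false

namespace Pool.Agent.Results.MP_93dabc_an.NoSelector

open MeasureTheory Set Filter Topology Function

/-- the circle of length one -/
abbrev K := AddCircle (1 : ℝ)

/-- normalized Haar (Lebesgue) measure on the circle -/
noncomputable abbrev mu : Measure K := AddCircle.haarAddCircle

/-- the subgroup of rational points -/
noncomputable def H : AddSubgroup K := (AddMonoidHom.comp (QuotientAddGroup.mk' (AddSubgroup.zmultiples (1:ℝ)))
  ((Rat.castHom ℝ).toAddMonoidHom)).range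

lemma mem_H (x : K) : x ∈ H ↔ ∃ q : ℚ, ((q : ℝ) : K) = x := Iff.rfl

instance : Countable H := by
  have : (H : Set K).Countable := by
    have h : (H : Set K) = Set.range (fun q : ℚ => ((q : ℝ) : K)) := by
      ext x; exact mem_H x
    rw [h]; exact Set.countable_range _
  exact this.to_subtype

instance : Infinite H := by
  have hinj : Function.Injective (fun n : ℕ => (⟨(((1 / ((n:ℚ) + 2) : ℚ) : ℝ) : K),
      ⟨_, rfl⟩⟩ : H)) := by
    intro m n hmn
    have h1 := congrArg Subtype.val hmn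
    simp only at h1
    have h2 : ∀ k : ℕ, ((1 / ((k:ℚ) + 2) : ℚ) : ℝ) ∈ Set.Ico (0:ℝ) (0 + 1) := by
      intro k
      push_cast
      constructor
      · positivity
      · rw [zero_add, div_lt_one (by positivity)]
        have : (0:ℝ) ≤ k := Nat.cast_nonneg k
        linarith
    have h3 := (AddCircle.coe_eq_coe_iff_of_mem_Ico (p := (1:ℝ)) (h2 m) (h2 n)).mp h1
    have h4 : (1 / ((m:ℚ) + 2) : ℚ) = 1 / ((n:ℚ) + 2) := by exact_mod_cast h3
    have h5 : (m:ℚ) + 2 = (n:ℚ) + 2 := by
      have hm : ((m:ℚ) + 2) ≠ 0 := by positivity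
      have hn : ((n:ℚ) + 2) ≠ 0 := by positivity
      field_simp at h4
      linarith
    have h6 : (m:ℚ) = n := by linarith
    exact_mod_cast h6
  exact Infinite.of_injective _ hinj

/-- a Vitali set -/
lemma exists_nonmeasurable : ∃ V : Set K, ¬ NullMeasurableSet V mu := by
  let V : Set K := Set.range (Quotient.out : K ⧸ H → K)
  refine ⟨V, fun hV => ?_⟩
  have hcover : (⋃ q : H, (fun x => x + (q : K)) ⁻¹' V) = Set.univ := by
    rw [Set.eq_univ_iff_forall]
    intro x
    rw [mem_iUnion]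
    let y : K := Quotient.out (QuotientAddGroup.mk x : K ⧸ H)
    have hy : (QuotientAddGroup.mk y : K ⧸ H) = QuotientAddGroup.mk x := Quotient.out_eq _
    have h1 : -x + y ∈ H := by
      rw [← QuotientAddGroup.eq]
      exact hy.symm
    refine ⟨⟨-x + y, h1⟩, ?_⟩
    show x + (-x + y) ∈ V
    rw [add_neg_cancel_left]
    exact ⟨_, rfl⟩
  have hdisj : Pairwise (AEDisjoint mu on fun q : H => (fun x => x + (q : K)) ⁻¹' V) := by
    intro q q' hqq'
    apply Disjoint.aedisjoint
    rw [Set.disjoint_left]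
    rintro x ⟨c, hc⟩ ⟨c', hc'⟩
    apply hqq'
    have e1 : (QuotientAddGroup.mk (x + (q : K)) : K ⧸ H) = QuotientAddGroup.mk x := by
      rw [QuotientAddGroup.eq]
      have : -(x + (q : K)) + x = -(q : K) := by abel
      rw [this]
      exact H.neg_mem q.2
    have e2 : (QuotientAddGroup.mk (x + (q' : K)) : K ⧸ H) = QuotientAddGroup.mk x := by
      rw [QuotientAddGroup.eq]
      have : -(x + (q' : K)) + x = -(q' : K) := by abel
      rw [this]
      exact H.neg_mem q'.2
    have f1 : (QuotientAddGroup.mk (Quotient.out c) : K ⧸ H) = c := Quotient.out_eq c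
    have f2 : (QuotientAddGroup.mk (Quotient.out c') : K ⧸ H) = c' := Quotient.out_eq c'
    have : c = c' := by
      rw [← f1, ← f2, hc, hc']
      exact e1.trans e2.symm
    subst this
    have : x + (q : K) = x + (q' : K) := hc.symm.trans hc'
    exact Subtype.ext (add_left_cancel this)
  have hnm : ∀ q : H, NullMeasurableSet ((fun x => x + (q : K)) ⁻¹' V) mu := by
    intro q
    exact hV.preimage (measurePreserving_add_right mu (q : K)).quasiMeasurePreserving
  have hsum := measure_iUnion₀ hdisj hnm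
  rw [hcover, measure_univ] at hsum
  have hconst : ∀ q : H, mu ((fun x => x + (q : K)) ⁻¹' V) = mu V := fun q =>
    measure_preimage_add_right mu (q : K) V
  simp only [hconst] at hsum
  by_cases h0 : mu V = 0
  · rw [h0] at hsum; simp at hsum
  · rw [ENNReal.tsum_const_eq_top_of_ne_zero h0] at hsum
    simp at hsum


/-- for a functional `φ` whose supremum over the unit ball exceeds `a`, only finitely many `t`
have `φ ≤ a` on `{x : ‖x‖ ≤ 1, x t = g t}` -/
lemma finite_bad (g : K → ℝ) (hg : ∀ t, |g t| ≤ 1) (φ : C(K, ℝ) →L[ℝ] ℝ) (a : ℝ)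
    (x0 : C(K, ℝ)) (hx0 : ‖x0‖ ≤ 1) (hφ : a < φ x0) :
    {t : K | ¬ ∃ x : C(K, ℝ), (‖x‖ ≤ 1 ∧ x t = g t) ∧ a < φ x}.Finite := by
  set η := (φ x0 - a) / 2 with hη
  have hη0 : 0 < η := by rw [hη]; linarith
  have hx0s : ∀ s, |x0 s| ≤ 1 := fun s => (x0.norm_coe_le_norm s).trans hx0
  -- bumps
  have hbump : ∀ t ∈ {t : K | ¬ ∃ x : C(K, ℝ), (‖x‖ ≤ 1 ∧ x t = g t) ∧ a < φ x}, ∀ r : ℝ, 0 < r →
      ∃ u : C(K, ℝ), (∀ s, |u s| ≤ 1) ∧ (∀ s, r ≤ dist s t → u s = 0) ∧ η ≤ φ u := by
    intro t ht r hr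
    let ψ : C(K, ℝ) := ⟨fun s => max 0 (1 - dist s t / r), by fun_prop⟩
    have hψ0 : ∀ s, 0 ≤ ψ s := fun s => le_max_left _ _
    have hψ1 : ∀ s, ψ s ≤ 1 := fun s => max_le (by norm_num) (by
      have : 0 ≤ dist s t / r := by positivity
      linarith)
    have hψt : ψ t = 1 := by simp [ψ]
    have hψr : ∀ s, r ≤ dist s t → ψ s = 0 := by
      intro s hs
      simp only [ψ, ContinuousMap.coe_mk]
      apply max_eq_left
      have : 1 ≤ dist s t / r := by rwa [one_le_div hr]
      linarith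
    let u : C(K, ℝ) := ⟨fun s => (x0 s - g t) * ψ s / 2, by fun_prop⟩
    refine ⟨u, ?_, ?_, ?_⟩
    · intro s
      simp only [u, ContinuousMap.coe_mk]
      rw [abs_div, abs_mul, abs_of_nonneg (hψ0 s)]
      have h1 : |x0 s - g t| ≤ 2 := by
        have := abs_sub (x0 s) (g t)
        linarith [hx0s s, hg t]
      have h2 : |x0 s - g t| * ψ s ≤ 2 * 1 :=
        mul_le_mul h1 (hψ1 s) (hψ0 s) (by norm_num)
      rw [abs_of_pos (show (0:ℝ) < 2 by norm_num)]
      linarith
    · intro s hs
      simp only [u, ContinuousMap.coe_mk]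
      rw [hψr s hs]; simp
    · by_contra hcon
      push Not at hcon
      apply ht
      refine ⟨x0 - (2:ℝ) • u, ⟨?_, ?_⟩, ?_⟩
      · rw [ContinuousMap.norm_le _ (by norm_num)]
        intro s
        have e : (x0 - (2:ℝ) • u) s = (1 - ψ s) * x0 s + ψ s * g t := by
          simp only [u, ContinuousMap.sub_apply, ContinuousMap.smul_apply, ContinuousMap.coe_mk,
            smul_eq_mul]
          ring
        rw [e, Real.norm_eq_abs]
        have h1 := abs_add_le ((1 - ψ s) * x0 s) (ψ s * g t)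
        rw [abs_mul, abs_mul, abs_of_nonneg (hψ0 s),
          abs_of_nonneg (show 0 ≤ 1 - ψ s by linarith [hψ1 s])] at h1
        have h2 := mul_le_mul_of_nonneg_left (hx0s s) (show 0 ≤ 1 - ψ s by linarith [hψ1 s])
        have h3 := mul_le_mul_of_nonneg_left (hg t) (hψ0 s)
        linarith
      · simp only [u, ContinuousMap.sub_apply, ContinuousMap.smul_apply, ContinuousMap.coe_mk,
            smul_eq_mul, hψt]
        ring
      · rw [map_sub, map_smul, smul_eq_mul]
        rw [hη] at hcon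
        linarith
  by_contra hinf
  obtain ⟨N, hN⟩ := exists_nat_gt (‖φ‖ / η)
  obtain ⟨T, hTsub, hTcard⟩ := (Set.not_finite.mp hinf).exists_subset_card_eq N
  obtain ⟨r, hr0, hr⟩ : ∃ r : ℝ, 0 < r ∧ ∀ t ∈ T, ∀ t' ∈ T, t ≠ t' → 2 * r ≤ dist t t' := by
    have h1 : ∀ᶠ r in 𝓝[>] (0:ℝ), ∀ t ∈ T, ∀ t' ∈ T, t ≠ t' → 2 * r ≤ dist t t' := by
      rw [Filter.eventually_all_finset]
      intro t _
      rw [Filter.eventually_all_finset]
      intro t' _
      by_cases htt : t = t'
      · exact Filter.Eventually.of_forall fun r h => absurd htt h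
      · have hpos : 0 < dist t t' / 2 := by
          have := dist_pos.mpr htt
          linarith
        filter_upwards [Ioo_mem_nhdsGT hpos] with r hr _
        linarith [hr.2]
    obtain ⟨r, hr1, hr2⟩ := (h1.and self_mem_nhdsWithin).exists
    exact ⟨r, hr2, hr1⟩
  have hch : ∀ t : K, ∃ u : C(K, ℝ), t ∈ T → (∀ s, |u s| ≤ 1) ∧ (∀ s, r ≤ dist s t → u s = 0) ∧
      η ≤ φ u := by
    intro t
    by_cases ht : t ∈ T
    · obtain ⟨u, hu⟩ := hbump t (hTsub ht) r hr0
      exact ⟨u, fun _ => hu⟩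
    · exact ⟨0, fun h => absurd h ht⟩
  choose u hu using hch
  have hw : ‖∑ t ∈ T, u t‖ ≤ 1 := by
    rw [ContinuousMap.norm_le _ (by norm_num)]
    intro s
    rw [ContinuousMap.sum_apply]
    by_cases hs : ∃ t ∈ T, dist s t < r
    · obtain ⟨t, ht, hst⟩ := hs
      rw [Finset.sum_eq_single t]
      · exact (hu t ht).1 s
      · intro t' ht' hne
        apply (hu t' ht').2.1
        have h1 := hr t' ht' t ht hne
        have h2 := dist_triangle t' s t
        rw [dist_comm t' s] at h2
        linarith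
      · intro h; exact absurd ht h
    · push Not at hs
      rw [Finset.sum_eq_zero fun t ht => (hu t ht).2.1 s (hs t ht)]
      simp
  have h1 : (N : ℝ) * η ≤ φ (∑ t ∈ T, u t) := by
    rw [map_sum]
    calc (N : ℝ) * η = ∑ t ∈ T, η := by rw [Finset.sum_const, hTcard, nsmul_eq_mul]
      _ ≤ _ := Finset.sum_le_sum fun t ht => (hu t ht).2.2
  have h2 : φ (∑ t ∈ T, u t) ≤ ‖φ‖ := by
    calc _ ≤ ‖φ (∑ t ∈ T, u t)‖ := le_abs_self _
      _ ≤ ‖φ‖ * ‖∑ t ∈ T, u t‖ := φ.le_opNorm _
      _ ≤ ‖φ‖ * 1 := by gcongr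
      _ = ‖φ‖ := mul_one _
  rw [div_lt_iff₀ hη0] at hN
  linarith

/-- the identity, from the completed space to the circle -/
noncomputable def idc : NullMeasurableSpace K mu → K := fun t => t

lemma measurable_idc : Measurable idc := by
  intro A hA
  have h : NullMeasurableSet A mu := hA.nullMeasurableSet
  exact h

/-- **Negative answer, with bounded values in a separable space.** There are a complete
probability space `Ω` (the circle with its completed Lebesgue measure) and a multi-function `F`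
from `Ω` to the nonempty, convex, norm-closed, bounded subsets of the separable Banach space
`C(circle)` which is scalarly measurable, but has no scalarly measurable selector. -/
theorem result :
    ∃ (Ω : Type) (_ : MeasurableSpace Ω) (μ : Measure Ω) (_ : IsProbabilityMeasure μ)
      (_ : μ.IsComplete) (F : Ω → Set C(AddCircle (1 : ℝ), ℝ)),
      (∀ t, (F t).Nonempty ∧ Convex ℝ (F t) ∧ IsClosed (F t) ∧ Bornology.IsBounded (F t)) ∧
      (∀ (φ : C(AddCircle (1 : ℝ), ℝ) →L[ℝ] ℝ) (a : ℝ),
        MeasurableSet {t : Ω | (F t ∩ {x | a < φ x}).Nonempty}) ∧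
      ¬ ∃ f : Ω → C(AddCircle (1 : ℝ), ℝ), (∀ t, f t ∈ F t) ∧
        ∀ φ : C(AddCircle (1 : ℝ), ℝ) →L[ℝ] ℝ, Measurable fun t => φ (f t) := by
  classical
  obtain ⟨V, hV⟩ := exists_nonmeasurable
  let g : K → ℝ := V.indicator fun _ => 1
  have hg : ∀ t, |g t| ≤ 1 := by
    intro t
    by_cases ht : t ∈ V
    · simp [g, ht]
    · simp [g, ht]
  refine ⟨NullMeasurableSpace K mu, inferInstance, mu.completion, ?_, inferInstance,
    fun t => {x : C(K, ℝ) | ‖x‖ ≤ 1 ∧ x (idc t) = g (idc t)}, ?_, ?_, ?_⟩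
  · refine ⟨?_⟩
    rw [Measure.completion_apply]
    exact measure_univ
  · intro t
    refine ⟨⟨ContinuousMap.const K (g (idc t)), ?_, rfl⟩, ?_, ?_, ?_⟩
    · rw [ContinuousMap.norm_le _ (by norm_num)]
      intro s
      exact hg (idc t)
    · intro x hx y hy a b ha hb hab
      refine ⟨?_, ?_⟩
      · calc ‖a • x + b • y‖ ≤ ‖a • x‖ + ‖b • y‖ := norm_add_le _ _
          _ = a * ‖x‖ + b * ‖y‖ := by
            rw [norm_smul, norm_smul, Real.norm_of_nonneg ha, Real.norm_of_nonneg hb]
          _ ≤ a * 1 + b * 1 := by gcongr; exact hx.1; exact hy.1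
          _ = 1 := by linarith
      · show a * x (idc t) + b * y (idc t) = g (idc t)
        rw [hx.2, hy.2, ← add_mul, hab, one_mul]
    · apply IsClosed.inter
      · exact isClosed_le continuous_norm continuous_const
      · exact isClosed_eq (ContinuousMap.evalCLM ℝ (idc t)).continuous continuous_const
    · refine (Metric.isBounded_closedBall (x := (0 : C(K, ℝ))) (r := 1)).subset ?_
      intro x hx
      simpa using hx.1
  · intro φ a
    by_cases h : ∃ x0 : C(K, ℝ), ‖x0‖ ≤ 1 ∧ a < φ x0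
    · obtain ⟨x0, hx0, hφ⟩ := h
      have hfin := finite_bad g hg φ a x0 hx0 hφ
      have hms : NullMeasurableSet
          ({t : K | ¬ ∃ x : C(K, ℝ), (‖x‖ ≤ 1 ∧ x t = g t) ∧ a < φ x}ᶜ) mu :=
        hfin.measurableSet.compl.nullMeasurableSet
      have heq : {t : K | ¬ ∃ x : C(K, ℝ), (‖x‖ ≤ 1 ∧ x t = g t) ∧ a < φ x}ᶜ =
          {t : K | ({x : C(K, ℝ) | ‖x‖ ≤ 1 ∧ x t = g t} ∩ {x | a < φ x}).Nonempty} := by
        ext t
        constructor
        · intro ht
          by_contra hcon
          exact ht fun ⟨x, hx1, hx2⟩ => hcon ⟨x, hx1, hx2⟩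
        · rintro ⟨x, hx1, hx2⟩ hcon
          exact hcon ⟨x, hx1, hx2⟩
      rw [heq] at hms
      have h2 : MeasurableSet (idc ⁻¹' {t : K | ({x : C(K, ℝ) | ‖x‖ ≤ 1 ∧ x t = g t} ∩
          {x | a < φ x}).Nonempty}) := hms
      exact h2
    · have : {t : NullMeasurableSpace K mu | ({x : C(K, ℝ) | ‖x‖ ≤ 1 ∧ x (idc t) = g (idc t)} ∩
          {x | a < φ x}).Nonempty} = ∅ := by
        rw [Set.eq_empty_iff_forall_notMem]
        rintro t ⟨x, ⟨hx1, -⟩, hx2⟩
        exact h ⟨x, hx1, hx2⟩
      rw [this]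
      exact MeasurableSet.empty
  · rintro ⟨f, hf1, hf2⟩
    apply hV
    have hu : Measurable (Function.uncurry fun (s : K) (t : NullMeasurableSpace K mu) => f t s) := by
      apply measurable_uncurry_of_continuous_of_measurable
      · intro t
        exact (f t).continuous
      · intro s
        exact hf2 (ContinuousMap.evalCLM ℝ s)
    have hdiag : Measurable (fun t : NullMeasurableSpace K mu => f t (idc t)) :=
      hu.comp (measurable_idc.prodMk measurable_id)
    have hgm : (fun t : NullMeasurableSpace K mu => f t (idc t)) = fun t => g (idc t) := by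
      funext t
      exact (hf1 t).2
    rw [hgm] at hdiag
    have hpre : (fun t => g (idc t)) ⁻¹' {1} = idc ⁻¹' V := by
      ext t
      by_cases ht : idc t ∈ V <;> simp [g, ht]
    have h3 := hdiag (measurableSet_singleton (1:ℝ))
    rw [hpre] at h3
    exact h3

end Pool.Agent.Results.MP_93dabc_an.NoSelector
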